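import Mathlib
import Pool.Agent.H.MP_cd85a3_co.B

set_option autoImplicit false

namespace Pool.Agent.Results.MP_cd85a3_co.Value

open Pool.Agent.H.MP_cd85a3_co

theorem result (n : ℕ) (hn : 1 ≤ n) (m : Fin n → ℕ) (hm : ∀ i, 2 ≤ m i) :
    IsLeast {k | CopsWin (grid m) k}
      (if n = 1 ∧ ∀ i, m i ≤ 3 then 1 else if n = 3 ∧ ∀ i, m i = 2 then 2 else (n + 1) / 2 + 1) :=
  main hm hn

end Pool.Agent.Results.MP_cd85a3_co.Value
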